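import Pool.Agent.Helper43.AX.St

/-! Module AR of project AX (MP_b3ce06_al). -/

set_option autoImplicit false

namespace Pool.Agent.Helper58.AX

open Pool.Agent.Helper43.AX
open Polynomial

/-- Module AR. -/
theorem hAR : StAR := by
  intro p hp h2
  have hp0 : p ≠ 0 := hp.out.ne_zero
  have hp1 : 1 < p := hp.out.one_lt
  have : Fintype (GaloisField p p) := Fintype.ofFinite _
  let j : GaloisField p p →+* AlgebraicClosure (GaloisField p p) := algebraMap _ _
  have hj : Function.Injective j := RingHom.injective _
  have hch : CharP (AlgebraicClosure (GaloisField p p)) p := charP_of_injective_ringHom hj p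
  have h20 : (2 : AlgebraicClosure (GaloisField p p)) ≠ 0 := by
    intro h
    have h3 : ((2 : ℕ) : AlgebraicClosure (GaloisField p p)) = 0 := by exact_mod_cast h
    rw [CharP.cast_eq_zero_iff _ p] at h3
    exact h2 ((Nat.prime_dvd_prime_iff_eq hp.out Nat.prime_two).1 h3)
  obtain ⟨c, hc⟩ : ∃ c : AlgebraicClosure (GaloisField p p), c = 2⁻¹ := ⟨_, rfl⟩
  have hc2 : c + c = 1 := by
    rw [hc, ← two_mul, mul_inv_cancel₀ h20]
  have hc0 : c ≠ 0 := by
    rw [hc]; exact inv_ne_zero h20
  have hcp : c ^ p = c := by
    have h3 : (2 : AlgebraicClosure (GaloisField p p)) ^ p = 2 := by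
      have h4 := map_natCast (frobenius (AlgebraicClosure (GaloisField p p)) p) 2
      rw [frobenius_def] at h4
      exact_mod_cast h4
    rw [hc, inv_pow, h3]
  obtain ⟨y, hy⟩ : ∃ y : AlgebraicClosure (GaloisField p p), y ^ p = y + c := by
    have hd : (X ^ p - X - C c : (AlgebraicClosure (GaloisField p p))[X]).degree ≠ 0 := by
      apply (Polynomial.degree_ne_of_natDegree_ne (n := 0))
      rw [natDegree_sub_C, FiniteField.X_pow_card_sub_X_natDegree_eq _ hp1]
      exact hp0
    obtain ⟨y, hy⟩ := IsAlgClosed.exists_root _ hd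
    refine ⟨y, ?_⟩
    have h3 : y ^ p - y - c = 0 := by
      simpa [IsRoot] using hy
    linear_combination h3
  have hyi : ∀ i : ℕ, y ^ (p ^ i) = y + i * c := by
    intro i
    induction i with
    | zero => simp
    | succ i ih =>
      rw [pow_succ, pow_mul, ih, add_pow_char, mul_pow, hcp, hy]
      have h4 := map_natCast (frobenius (AlgebraicClosure (GaloisField p p)) p) i
      rw [frobenius_def] at h4
      rw [h4]
      push_cast
      ring
  have hyy : y ^ (p ^ p) = y := by
    rw [hyi p, CharP.cast_eq_zero, zero_mul, add_zero]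
  obtain ⟨x, hx⟩ : ∃ x : GaloisField p p, j x = y := by
    classical
    have hq : 1 < p ^ p := Nat.one_lt_pow hp0 hp1
    have hP0 : (X ^ (p ^ p) - X : (AlgebraicClosure (GaloisField p p))[X]) ≠ 0 :=
      FiniteField.X_pow_card_sub_X_ne_zero _ hq
    have hcard : Fintype.card (GaloisField p p) = p ^ p := by
      rw [← Nat.card_eq_fintype_card, GaloisField.card p p hp0]
    have hsub : (Finset.univ.image j) ⊆
        (X ^ (p ^ p) - X : (AlgebraicClosure (GaloisField p p))[X]).roots.toFinset := by
      intro z hz
      obtain ⟨w, -, rfl⟩ := Finset.mem_image.1 hz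
      rw [Multiset.mem_toFinset, mem_roots hP0]
      have h5 : w ^ (p ^ p) = w := by
        have h6 := FiniteField.pow_card w
        rwa [hcard] at h6
      simp only [IsRoot, eval_sub, eval_pow, eval_X, ← map_pow, h5, sub_self]
    have hle : (X ^ (p ^ p) - X : (AlgebraicClosure (GaloisField p p))[X]).roots.toFinset.card ≤
        (Finset.univ.image j).card := by
      rw [Finset.card_image_of_injective _ hj, Finset.card_univ, hcard]
      refine (Multiset.toFinset_card_le _).trans ((card_roots' _).trans ?_)
      rw [FiniteField.X_pow_card_sub_X_natDegree_eq _ hq]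
    have heq := Finset.eq_of_subset_of_card_le hsub hle
    have hmem : y ∈ (X ^ (p ^ p) - X :
        (AlgebraicClosure (GaloisField p p))[X]).roots.toFinset := by
      rw [Multiset.mem_toFinset, mem_roots hP0]
      simp only [IsRoot, eval_sub, eval_pow, eval_X, hyy, sub_self]
    rw [← heq] at hmem
    obtain ⟨w, -, hw⟩ := Finset.mem_image.1 hmem
    exact ⟨w, hw⟩
  refine ⟨x, ?_, ?_⟩
  · apply hj
    rw [map_pow, map_add, map_one, hx, hyi 2]
    push_cast
    linear_combination hc2
  · intro h
    have h7 := congrArg j h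
    rw [map_pow, hx, hy] at h7
    exact hc0 (by linear_combination h7)

end Pool.Agent.Helper58.AX
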