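import Pool.Agent.Helper43.AX.St

/-! Module TG of project AX (MP_b3ce06_al). -/

set_option autoImplicit false
set_option linter.unusedSectionVars false
set_option linter.style.haveILetI false

namespace Pool.Agent.Helper58.AX

open Pool.Agent.Helper43.AX
open Pool.Agent.Helper43.GD (cj)
open Matrix

section SL

variable {K : Type} [Field K]

/-- upper transvection -/
def EE (c : K) : SpecialLinearGroup (Fin 2) K := ⟨!![1, c; 0, 1], by simp [Matrix.det_fin_two]⟩

/-- lower transvection -/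
def FL (c : K) : SpecialLinearGroup (Fin 2) K := ⟨!![1, 0; c, 1], by simp [Matrix.det_fin_two]⟩

/-- the Weyl element -/
def WW (K : Type) [Field K] : SpecialLinearGroup (Fin 2) K :=
  ⟨!![0, 1; -1, 0], by rw [Matrix.det_fin_two]; simp⟩

private lemma mul_ij (g h : SpecialLinearGroup (Fin 2) K) (i j : Fin 2) :
    (g * h).1 i j = g.1 i 0 * h.1 0 j + g.1 i 1 * h.1 1 j := by
  show (g.1 * h.1) i j = _
  rw [Matrix.mul_apply, Fin.sum_univ_two]

private lemma EE_add (a b : K) : EE (a + b) = EE a * EE b := by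
  apply Subtype.ext
  ext i j
  fin_cases i <;> fin_cases j <;> simp [EE, Matrix.mul_apply, Fin.sum_univ_two, add_comm]

private lemma EE_zero : EE (0 : K) = 1 := by
  apply Subtype.ext
  ext i j
  fin_cases i <;> fin_cases j <;> simp [EE]

private lemma EE_neg (a : K) : EE (-a) = (EE a)⁻¹ := by
  rw [eq_inv_iff_mul_eq_one, ← EE_add, neg_add_cancel, EE_zero]

private lemma WW_eq : EE (1 : K) * FL (-1) * EE 1 = WW K := by
  apply Subtype.ext
  ext i j
  fin_cases i <;> fin_cases j <;> simp [EE, FL, WW, Matrix.mul_apply, Fin.sum_univ_two]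

private lemma WW_eq' : FL (-1) * EE (1 : K) * FL (-1) = WW K := by
  apply Subtype.ext
  ext i j
  fin_cases i <;> fin_cases j <;> simp [EE, FL, WW, Matrix.mul_apply, Fin.sum_univ_two]

private lemma conj_WW2 : MulAut.conj (WW K * WW K) = 1 := by
  ext g : 1
  rw [MulAut.conj_apply, MulAut.one_apply, mul_inv_eq_iff_eq_mul]
  apply Subtype.ext
  ext i j
  fin_cases i <;> fin_cases j <;> simp [WW, Matrix.mul_apply, Fin.sum_univ_two]

/-- the diagonal automorphism as a function -/
def tauF (u : Kˣ) (g : SpecialLinearGroup (Fin 2) K) : SpecialLinearGroup (Fin 2) K :=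
  ⟨!![g.1 0 0, ((u⁻¹ : Kˣ) : K) * g.1 0 1; (u : K) * g.1 1 0, g.1 1 1], by
    have h := g.2
    rw [Matrix.det_fin_two] at h
    rw [Matrix.det_fin_two]
    simp only [Matrix.of_apply, Matrix.cons_val', Matrix.cons_val_zero, Matrix.cons_val_one,
      Matrix.cons_val_fin_one]
    have h2 : ((u⁻¹ : Kˣ) : K) * (u : K) = 1 := u.inv_mul
    linear_combination h - (g.1 0 1 * g.1 1 0) * h2⟩

private lemma tauF_mul (u v : Kˣ) (g : SpecialLinearGroup (Fin 2) K) :
    tauF (u * v) g = tauF u (tauF v g) := by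
  apply Subtype.ext
  ext i j
  fin_cases i <;> fin_cases j <;> simp [tauF, mul_assoc, mul_comm, mul_left_comm]

private lemma tauF_one (g : SpecialLinearGroup (Fin 2) K) : tauF 1 g = g := by
  apply Subtype.ext
  ext i j
  fin_cases i <;> fin_cases j <;> simp [tauF]

/-- the diagonal automorphisms -/
def tau : Kˣ →* MulAut (SpecialLinearGroup (Fin 2) K) where
  toFun u :=
    { toFun := tauF u
      invFun := tauF u⁻¹
      left_inv := fun g => by rw [← tauF_mul, inv_mul_cancel, tauF_one]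
      right_inv := fun g => by rw [← tauF_mul, mul_inv_cancel, tauF_one]
      map_mul' := fun g h => by
        have h2 : ((u⁻¹ : Kˣ) : K) * (u : K) = 1 := u.inv_mul
        apply Subtype.ext
        ext i j
        rw [mul_ij]
        fin_cases i <;> fin_cases j <;>
          simp only [tauF, mul_ij, Matrix.of_apply, Matrix.cons_val', Matrix.cons_val_zero,
            Matrix.cons_val_one, Matrix.cons_val_fin_one, Fin.zero_eta, Fin.mk_one, Fin.isValue]
        · linear_combination (-(g.1 0 1 * h.1 1 0)) * h2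
        · ring
        · ring
        · linear_combination (-(g.1 1 0 * h.1 0 1)) * h2 }
  map_one' := by
    ext g : 1
    exact tauF_one g
  map_mul' u v := by
    ext g : 1
    exact tauF_mul u v g

private lemma tau_apply (u : Kˣ) (g : SpecialLinearGroup (Fin 2) K) : tau u g = tauF u g := rfl

private lemma tau_E (u : Kˣ) (c : K) : tau u (EE c) = EE (((u⁻¹ : Kˣ) : K) * c) := by
  rw [tau_apply]
  apply Subtype.ext
  ext i j
  fin_cases i <;> fin_cases j <;> simp [tauF, EE]

private lemma cconj {G : Type} [Group G] (φ : MulAut G) (g : G) :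
    φ * MulAut.conj g * φ⁻¹ = MulAut.conj (φ g) := by
  ext h : 1
  simp only [MulAut.mul_apply, MulAut.conj_apply, map_mul, map_inv, MulAut.apply_inv_self]

private lemma cj_tau (u : Kˣ) (i : ℤ) :
    cj (MulAut.conj (EE (1 : K))) (tau u) i = MulAut.conj (EE (((u ^ i : Kˣ) : Kˣ) : K)) := by
  unfold cj
  have h1 : (tau u) ^ i = ((tau u) ^ (-i))⁻¹ := by rw [_root_.zpow_neg, inv_inv]
  rw [h1, cconj, ← map_zpow, tau_E, mul_one, _root_.zpow_neg, inv_inv]

/-- the diagonal element -/
def DG (u : Kˣ) : SpecialLinearGroup (Fin 2) K :=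
  ⟨!![(u : K), 0; 0, ((u⁻¹ : Kˣ) : K)], by rw [Matrix.det_fin_two]; simp⟩

private lemma WW_tau (u : Kˣ) :
    (MulAut.conj (WW K))⁻¹ * tau u * MulAut.conj (WW K) = (tau u)⁻¹ := by
  rw [mul_assoc, inv_mul_eq_iff_eq_mul, ← map_inv]
  ext g : 1
  rw [MulAut.mul_apply, MulAut.mul_apply, MulAut.conj_apply, MulAut.conj_apply, map_mul, map_mul,
    map_inv, mul_inv_eq_iff_eq_mul]
  have hW : tau u (WW K) = WW K * DG u := by
    rw [tau_apply]
    apply Subtype.ext
    ext i j
    rw [mul_ij]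
    fin_cases i <;> fin_cases j <;> simp [tauF, WW, DG]
  have h2 : WW K * tau u⁻¹ g * (WW K)⁻¹ * (WW K * DG u) = WW K * (tau u⁻¹ g * DG u) := by group
  rw [hW, h2, mul_assoc, tau_apply, tau_apply]
  congr 1
  apply Subtype.ext
  ext i j
  rw [mul_ij, mul_ij]
  fin_cases i <;> fin_cases j <;> simp [tauF, DG, mul_comm]

/-- generation of `SL(2,K)` -/
private lemma gen (P : Subgroup (SpecialLinearGroup (Fin 2) K)) (hE : ∀ c : K, EE c ∈ P)
    (hW : WW K ∈ P) : P = ⊤ := by
  rw [Subgroup.eq_top_iff']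
  have key : ∀ g : SpecialLinearGroup (Fin 2) K, g.1 1 0 ≠ 0 → g ∈ P := by
    intro g hg
    have hdet := g.2
    rw [Matrix.det_fin_two] at hdet
    have hF : WW K * EE (-(g.1 1 0)) * (WW K)⁻¹ ∈ P :=
      P.mul_mem (P.mul_mem hW (hE _)) (P.inv_mem hW)
    have hF2 : WW K * EE (-(g.1 1 0)) * (WW K)⁻¹ =
        ⟨!![1, 0; g.1 1 0, 1], by simp [Matrix.det_fin_two]⟩ := by
      rw [mul_inv_eq_iff_eq_mul]
      apply Subtype.ext
      ext i j
      fin_cases i <;> fin_cases j <;>
        simp [EE, WW, Matrix.mul_apply, Fin.sum_univ_two]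
    have : g = EE ((g.1 0 0 - 1) * (g.1 1 0)⁻¹) * (WW K * EE (-(g.1 1 0)) * (WW K)⁻¹) *
        EE ((g.1 1 1 - 1) * (g.1 1 0)⁻¹) := by
      rw [hF2]
      apply Subtype.ext
      ext i j
      fin_cases i <;> fin_cases j <;>
        simp [EE, Matrix.mul_apply, Fin.sum_univ_two]
      · field_simp
        ring
      · field_simp
        linear_combination -hdet
      · field_simp
        ring
    rw [this]
    exact P.mul_mem (P.mul_mem (hE _) hF) (hE _)
  intro g
  by_cases hg : g.1 1 0 = 0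
  · have h1 : WW K * g ∈ P := by
      apply key
      have hdet := g.2
      rw [Matrix.det_fin_two, hg, mul_zero, sub_zero] at hdet
      have : (WW K * g).1 1 0 = -(g.1 0 0) := by
        simp [WW, Matrix.mul_apply, Fin.sum_univ_two]
      rw [this]
      exact neg_ne_zero.2 (left_ne_zero_of_mul_eq_one hdet)
    exact (P.mul_mem_cancel_left hW).1 h1
  · exact key g hg

end SL

section Frob

variable {K : Type} [Field K] [Finite K] (p : ℕ) [Fact p.Prime] [CharP K p]

private lemma map_inj : Function.Injective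
    (SpecialLinearGroup.map (n := Fin 2) (frobenius K p)) := by
  intro g h hgh
  apply Subtype.ext
  ext i j
  have := congrArg (fun M => M.1 i j) hgh
  simp only [SpecialLinearGroup.map_apply_coe, RingHom.mapMatrix_apply, Matrix.map_apply] at this
  exact frobenius_inj K p this

/-- entrywise Frobenius -/
noncomputable def Frb (K : Type) [Field K] [Finite K] (p : ℕ) [Fact p.Prime] [CharP K p] :
    MulAut (SpecialLinearGroup (Fin 2) K) :=
  MulEquiv.ofBijective (SpecialLinearGroup.map (n := Fin 2) (frobenius K p))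
    (Finite.injective_iff_bijective.1 (map_inj p))

private lemma Frb_apply (g : SpecialLinearGroup (Fin 2) K) (i j : Fin 2) :
    (Frb K p g).1 i j = (g.1 i j) ^ p := by
  show (SpecialLinearGroup.map (n := Fin 2) (frobenius K p) g).1 i j = _
  simp [frobenius_def]

private lemma Frb_pow_apply (m : ℕ) (g : SpecialLinearGroup (Fin 2) K) (i j : Fin 2) :
    ((Frb K p ^ m) g).1 i j = (g.1 i j) ^ (p ^ m) := by
  induction m with
  | zero => simp
  | succ m ih =>
    rw [pow_succ', MulAut.mul_apply, Frb_apply, ih, ← pow_mul, pow_succ]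

private lemma neg_one_pow' : (-1 : K) ^ p = -1 := by
  have h := map_neg (frobenius K p) 1
  rwa [map_one, frobenius_def] at h

private lemma Frb_E : Frb K p (EE 1) = EE 1 := by
  have hp : p ≠ 0 := (Fact.out : p.Prime).ne_zero
  apply Subtype.ext
  ext i j
  rw [Frb_apply]
  fin_cases i <;> fin_cases j <;> simp [EE, hp]

private lemma Frb_F : Frb K p (FL (-1)) = FL (-1) := by
  have hp : p ≠ 0 := (Fact.out : p.Prime).ne_zero
  have h1 := neg_one_pow' (K := K) p
  apply Subtype.ext
  ext i j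
  rw [Frb_apply]
  fin_cases i <;> fin_cases j <;> simp [FL, hp, h1]

private lemma Frb_tau (u : Kˣ) : Frb K p * tau u * (Frb K p)⁻¹ = (tau u) ^ p := by
  rw [mul_inv_eq_iff_eq_mul, ← map_pow]
  ext g i j
  rw [MulAut.mul_apply, MulAut.mul_apply, tau_apply, tau_apply]
  rw [Frb_apply]
  fin_cases i <;> fin_cases j <;> simp [tauF, Frb_apply, mul_pow]

end Frob

/-- additive span of the powers of `x` -/
private lemma span_top (p : ℕ) [Fact p.Prime] (x : GaloisField p p) (hx : x ^ p ≠ x)
    (Z : AddSubgroup (GaloisField p p)) (hZ : ∀ i : ℕ, x ^ i ∈ Z) : ∀ y, y ∈ Z := by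
  have hpp : p.Prime := Fact.out
  have hfr : Module.finrank (ZMod p) (GaloisField p p) = p := GaloisField.finrank p hpp.ne_zero
  have hsimple : IsSimpleOrder (Subalgebra (ZMod p) (GaloisField p p)) :=
    Subalgebra.isSimpleOrder_of_finrank_prime _ _ (by rw [hfr]; exact hpp)
  have htop : Algebra.adjoin (ZMod p) {x} = ⊤ := by
    rcases hsimple.eq_bot_or_eq_top (Algebra.adjoin (ZMod p) {x}) with h | h
    · exfalso
      have hx2 : x ∈ Algebra.adjoin (ZMod p) {x} := Algebra.self_mem_adjoin_singleton _ _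
      rw [h, Algebra.mem_bot] at hx2
      obtain ⟨c, hc⟩ := hx2
      apply hx
      rw [← hc, ← map_pow, ZMod.pow_card]
    · exact h
  intro y
  have hy : y ∈ Algebra.adjoin (ZMod p) {x} := by rw [htop]; trivial
  rw [Algebra.adjoin_singleton_eq_range_aeval] at hy
  obtain ⟨q, rfl⟩ := hy
  induction q using Polynomial.induction_on' with
  | add q r hq hr => rw [map_add]; exact Z.add_mem hq hr
  | monomial i c =>
    show Polynomial.aeval x (Polynomial.monomial i c) ∈ Z
    rw [Polynomial.aeval_monomial]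
    have h1 : (algebraMap (ZMod p) (GaloisField p p)) c = ((c.val : ℕ) : GaloisField p p) := by
      conv_lhs => rw [← ZMod.natCast_zmod_val c]
      rw [map_natCast]
    rw [h1, ← nsmul_eq_mul]
    exact Z.nsmul_mem (hZ i) _

/-- abstract computations -/
private lemma absd {T : Type} [Group T] (p : ℕ) (k : ℤ) (A B W R t : T) (hAR : Commute A R)
    (hBR : Commute B R) (hW1 : A * B * A = W) (hW2 : B * A * B = W) (hWW : W * W = 1)
    (hR : R ^ (6 * k - 1) = 1) (hWt : W⁻¹ * t * W = t⁻¹) (hRt : R * t * R⁻¹ = t ^ p) :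
    ((A * R ^ (-(2 * k))) * (B * R ^ (-(2 * k)))) ^ 3 = R ^ (-(12 * k)) ∧
    (A * R ^ (-(2 * k))) * (B * R ^ (-(2 * k))) * (A * R ^ (-(2 * k))) =
      (B * R ^ (-(2 * k))) * (A * R ^ (-(2 * k))) * (B * R ^ (-(2 * k))) ∧
    ((A * R ^ (-(2 * k))) * (B * R ^ (-(2 * k))) * (A * R ^ (-(2 * k))))⁻¹ * t *
      ((A * R ^ (-(2 * k))) * (B * R ^ (-(2 * k))) * (A * R ^ (-(2 * k)))) = (t ^ p)⁻¹ ∧
    (R ^ (-(12 * k))) ^ (-k) = R ^ (2 * k) := by
  have e1 : (A * R ^ (-(2 * k))) * (B * R ^ (-(2 * k))) * (A * R ^ (-(2 * k))) =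
      W * R ^ (-(6 * k)) := by
    have h1 : R ^ (-(2 * k)) * B = B * R ^ (-(2 * k)) := (hBR.zpow_right _).eq.symm
    have h2 : R ^ (-(2 * k)) * R ^ (-(2 * k)) * A = A * (R ^ (-(2 * k)) * R ^ (-(2 * k))) :=
      ((hAR.zpow_right _).mul_right (hAR.zpow_right _)).eq.symm
    calc (A * R ^ (-(2 * k))) * (B * R ^ (-(2 * k))) * (A * R ^ (-(2 * k))) =
        A * (R ^ (-(2 * k)) * B) * R ^ (-(2 * k)) * A * R ^ (-(2 * k)) := by group
      _ = A * B * (R ^ (-(2 * k)) * R ^ (-(2 * k)) * A) * R ^ (-(2 * k)) := by rw [h1]; group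
      _ = (A * B * A) * (R ^ (-(2 * k)) * R ^ (-(2 * k)) * R ^ (-(2 * k))) := by
        rw [h2]; group
      _ = W * R ^ (-(6 * k)) := by
        rw [hW1, ← _root_.zpow_add, ← _root_.zpow_add]
        congr 2
        ring
  have e2 : (B * R ^ (-(2 * k))) * (A * R ^ (-(2 * k))) * (B * R ^ (-(2 * k))) =
      W * R ^ (-(6 * k)) := by
    have h1 : R ^ (-(2 * k)) * A = A * R ^ (-(2 * k)) := (hAR.zpow_right _).eq.symm
    have h2 : R ^ (-(2 * k)) * R ^ (-(2 * k)) * B = B * (R ^ (-(2 * k)) * R ^ (-(2 * k))) :=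
      ((hBR.zpow_right _).mul_right (hBR.zpow_right _)).eq.symm
    calc (B * R ^ (-(2 * k))) * (A * R ^ (-(2 * k))) * (B * R ^ (-(2 * k))) =
        B * (R ^ (-(2 * k)) * A) * R ^ (-(2 * k)) * B * R ^ (-(2 * k)) := by group
      _ = B * A * (R ^ (-(2 * k)) * R ^ (-(2 * k)) * B) * R ^ (-(2 * k)) := by rw [h1]; group
      _ = (B * A * B) * (R ^ (-(2 * k)) * R ^ (-(2 * k)) * R ^ (-(2 * k))) := by
        rw [h2]; group
      _ = W * R ^ (-(6 * k)) := by
        rw [hW2, ← _root_.zpow_add, ← _root_.zpow_add]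
        congr 2
        ring
  have hWR : Commute W R := by
    rw [← hW1]
    exact (hAR.mul_left hBR).mul_left hAR
  have hR6 : R ^ (-(6 * k)) = R⁻¹ := by
    have h3 : -(6 * k) = -(6 * k - 1) + (-1) := by ring
    rw [h3, _root_.zpow_add, _root_.zpow_neg, hR, inv_one, one_mul, _root_.zpow_neg, zpow_one]
  refine ⟨?_, ?_, ?_, ?_⟩
  · have h4 : ((A * R ^ (-(2 * k))) * (B * R ^ (-(2 * k)))) ^ 3 =
        ((A * R ^ (-(2 * k))) * (B * R ^ (-(2 * k))) * (A * R ^ (-(2 * k)))) *
          ((B * R ^ (-(2 * k))) * (A * R ^ (-(2 * k))) * (B * R ^ (-(2 * k)))) := by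
      rw [pow_succ, pow_two]
      simp only [mul_assoc]
    rw [h4, e1, e2]
    have h5 : R ^ (-(6 * k)) * W = W * R ^ (-(6 * k)) := (hWR.zpow_right _).eq.symm
    calc W * R ^ (-(6 * k)) * (W * R ^ (-(6 * k))) =
        W * (R ^ (-(6 * k)) * W) * R ^ (-(6 * k)) := by group
      _ = (W * W) * (R ^ (-(6 * k)) * R ^ (-(6 * k))) := by rw [h5]; group
      _ = R ^ (-(12 * k)) := by
        rw [hWW, one_mul, ← _root_.zpow_add]
        congr 1
        ring
  · rw [e1, e2]
  · rw [e1, hR6]
    calc (W * R⁻¹)⁻¹ * t * (W * R⁻¹) = R * (W⁻¹ * t * W) * R⁻¹ := by group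
      _ = (R * t * R⁻¹)⁻¹ := by rw [hWt]; group
      _ = (t ^ p)⁻¹ := by rw [hRt]
  · have h6 : -(12 * k) * (-k) = (6 * k - 1) * (2 * k) + 2 * k := by ring
    rw [← _root_.zpow_mul, h6, _root_.zpow_add, _root_.zpow_mul, hR, _root_.one_zpow, one_mul]

/-- Module TG. -/
theorem hTG (hAR : StAR) : StTG := by
  intro p k hp hp5 hk
  haveI := hp
  have hpp : p.Prime := hp.out
  obtain ⟨x, hx1, hxp⟩ := hAR p (by omega)
  have hx0 : x ≠ 0 := by
    rintro rfl
    exact hxp (zero_pow hpp.ne_zero)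
  have hpow : ∀ a : GaloisField p p, a ^ (p ^ p) = a := by
    intro a
    haveI := Fintype.ofFinite (GaloisField p p)
    have h1 := FiniteField.pow_card a
    have h2 : Fintype.card (GaloisField p p) = p ^ p := by
      rw [← Nat.card_eq_fintype_card, GaloisField.card p p hpp.ne_zero]
    rwa [h2] at h1
  obtain ⟨u, hu⟩ : ∃ u : (GaloisField p p)ˣ, (u : GaloisField p p) = x :=
    ⟨Units.mk0 x hx0, rfl⟩
  obtain ⟨R, hRd⟩ : ∃ R, R = Frb (GaloisField p p) p := ⟨_, rfl⟩
  obtain ⟨A, hAd⟩ : ∃ A, A = MulAut.conj (EE (1 : GaloisField p p)) := ⟨_, rfl⟩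
  obtain ⟨B, hBd⟩ : ∃ B, B = MulAut.conj (FL (-1 : GaloisField p p)) := ⟨_, rfl⟩
  obtain ⟨W, hWd⟩ : ∃ W, W = MulAut.conj (WW (GaloisField p p)) := ⟨_, rfl⟩
  obtain ⟨t, htd⟩ : ∃ t, t = tau u := ⟨_, rfl⟩
  have hRp : R ^ p = 1 := by
    rw [hRd]
    ext g i j
    rw [Frb_pow_apply, hpow]
    rfl
  have hR : R ^ (6 * k - 1) = 1 := by
    rcases Int.natAbs_eq (6 * k - 1) with h | h
    · rw [h, hk, zpow_natCast, hRp]
    · rw [h, hk, _root_.zpow_neg, zpow_natCast, hRp, inv_one]
  have hAR' : Commute A R := by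
    have h1 := cconj (Frb (GaloisField p p) p) (EE 1)
    rw [Frb_E, ← hRd, ← hAd, mul_inv_eq_iff_eq_mul] at h1
    exact h1.symm
  have hBR' : Commute B R := by
    have h1 := cconj (Frb (GaloisField p p) p) (FL (-1))
    rw [Frb_F, ← hRd, ← hBd, mul_inv_eq_iff_eq_mul] at h1
    exact h1.symm
  have hW1 : A * B * A = W := by rw [hAd, hBd, hWd, ← map_mul, ← map_mul, WW_eq]
  have hW2 : B * A * B = W := by rw [hAd, hBd, hWd, ← map_mul, ← map_mul, WW_eq']
  have hWW : W * W = 1 := by rw [hWd, ← map_mul, conj_WW2]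
  have hWt : W⁻¹ * t * W = t⁻¹ := by rw [hWd, htd, WW_tau]
  have hRt : R * t * R⁻¹ = t ^ p := by rw [hRd, htd, Frb_tau]
  obtain ⟨q1, q2, q3, q4⟩ := absd p k A B W R t hAR' hBR' hW1 hW2 hWW hR hWt hRt
  have hcj : ∀ i : ℕ, cj A t (i : ℤ) = MulAut.conj (EE (x ^ i)) := by
    intro i
    rw [hAd, htd, cj_tau, zpow_natCast, Units.val_pow_eq_pow_val, hu]
  have hA0 : A * R ^ (-(2 * k)) * ((A * R ^ (-(2 * k)) * (B * R ^ (-(2 * k)))) ^ 3) ^ (-k) =
      A := by
    rw [q1, q4, mul_assoc, ← _root_.zpow_add, neg_add_cancel, zpow_zero, mul_one]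
  refine ⟨MulAut (SpecialLinearGroup (Fin 2) (GaloisField p p)), inferInstance,
    A * R ^ (-(2 * k)), B * R ^ (-(2 * k)), t, ⟨q2, q3, ?_⟩, ?_⟩
  · rw [hA0, hcj, hx1, add_comm, EE_add, map_mul, ← hAd]
    have h1 := hcj 1
    rw [Nat.cast_one, pow_one] at h1
    rw [h1]
  · intro G _ f ga gb gt hga hgb hgt hcl
    have ha : A * R ^ (-(2 * k)) ∈ f.range := ⟨ga, hga⟩
    have hb : B * R ^ (-(2 * k)) ∈ f.range := ⟨gb, hgb⟩
    have ht : t ∈ f.range := ⟨gt, hgt⟩
    have hRr : R ^ (2 * k) ∈ f.range := by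
      rw [← q4, ← q1]
      exact f.range.zpow_mem (f.range.pow_mem (f.range.mul_mem ha hb) 3) _
    have hAr : A ∈ f.range := by
      have h2 : A * R ^ (-(2 * k)) * R ^ (2 * k) = A := by group
      rw [← h2]
      exact f.range.mul_mem ha hRr
    have hBr : B ∈ f.range := by
      have h2 : B * R ^ (-(2 * k)) * R ^ (2 * k) = B := by group
      rw [← h2]
      exact f.range.mul_mem hb hRr
    have hWr : W ∈ f.range := by
      rw [← hW1]
      exact f.range.mul_mem (f.range.mul_mem hAr hBr) hAr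
    have hEr : ∀ n : ℕ, MulAut.conj (EE (x ^ n)) ∈ f.range := by
      intro n
      rw [← hcj]
      unfold cj
      exact f.range.mul_mem (f.range.mul_mem (f.range.zpow_mem ht _) hAr)
        (f.range.zpow_mem ht _)
    obtain ⟨N, hN⟩ : ∃ N : Subgroup (MulAut (SpecialLinearGroup (Fin 2) (GaloisField p p))),
      N = MonoidHom.range MulAut.conj := ⟨_, rfl⟩
    have hNr : ∀ g : SpecialLinearGroup (Fin 2) (GaloisField p p), MulAut.conj g ∈ f.range := by
      let Z : AddSubgroup (GaloisField p p) :=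
        { carrier := {c | MulAut.conj (EE c) ∈ f.range}
          zero_mem' := by
            show MulAut.conj (EE 0) ∈ f.range
            rw [EE_zero, map_one]
            exact f.range.one_mem
          add_mem' := by
            intro b c hb hc
            show MulAut.conj (EE (b + c)) ∈ f.range
            rw [EE_add, map_mul]
            exact f.range.mul_mem hb hc
          neg_mem' := by
            intro b hb
            show MulAut.conj (EE (-b)) ∈ f.range
            rw [EE_neg, map_inv]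
            exact f.range.inv_mem hb }
      have hall := span_top p x hxp Z hEr
      have hP : f.range.comap (MulAut.conj :
          SpecialLinearGroup (Fin 2) (GaloisField p p) →* _) = ⊤ :=
        gen _ (fun c => hall c) (by
          show MulAut.conj (WW _) ∈ f.range
          rw [← hWd]
          exact hWr)
      intro g
      have : g ∈ f.range.comap (MulAut.conj :
          SpecialLinearGroup (Fin 2) (GaloisField p p) →* _) := by rw [hP]; trivial
      exact this
    refine ⟨(MonoidHom.range (MulAut.conj :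
          SpecialLinearGroup (Fin 2) (GaloisField p p) →* _)).comap f, ⟨?_⟩, ?_⟩
    · rintro n ⟨g, hg⟩ y
      refine ⟨f y g, ?_⟩
      rw [← cconj, hg, map_mul, map_mul, map_inv]
    · have hker : (MulAut.conj : SpecialLinearGroup (Fin 2) (GaloisField p p) →* _).ker =
          Subgroup.center (SpecialLinearGroup (Fin 2) (GaloisField p p)) := by
        ext g
        rw [MonoidHom.mem_ker, Subgroup.mem_center_iff]
        constructor
        · intro h z
          have h1 := DFunLike.congr_fun h z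
          rw [MulAut.conj_apply, MulAut.one_apply, mul_inv_eq_iff_eq_mul] at h1
          exact h1.symm
        · intro h
          ext z : 1
          rw [MulAut.conj_apply, MulAut.one_apply, mul_inv_eq_iff_eq_mul]
          exact (h z).symm
      let e1 := QuotientGroup.quotientKerEquivRange
        (MulAut.conj : SpecialLinearGroup (Fin 2) (GaloisField p p) →* _)
      let e2 := QuotientGroup.quotientMulEquivOfEq hker
      refine ⟨(e1.symm.trans e2).toMonoidHom.comp (f.subgroupComap _), ?_⟩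
      intro q
      obtain ⟨g, rfl⟩ := QuotientGroup.mk'_surjective _ q
      obtain ⟨y, hy⟩ := hNr g
      refine ⟨⟨y, ⟨g, hy.symm⟩⟩, ?_⟩
      have h3 : (f.subgroupComap (MonoidHom.range MulAut.conj)) ⟨y, ⟨g, hy.symm⟩⟩ =
          e1 (QuotientGroup.mk' _ g) := Subtype.ext hy
      show e2 (e1.symm ((f.subgroupComap (MonoidHom.range MulAut.conj))
        ⟨y, ⟨g, hy.symm⟩⟩)) = _
      rw [h3, MulEquiv.symm_apply_apply]
      rfl

end Pool.Agent.Helper58.AX
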